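import Mathlib

set_option autoImplicit false

/-! Shared definitions of the campaign SO (MP_9cfc0a, SharpOrder). -/

namespace Pool.Agent.SO

open Complex

/-- Smooth step: `1` for `x ≤ a`, `0` for `b ≤ x` (`a < b`). -/
noncomputable def stp (a b x : ℝ) : ℝ := Real.smoothTransition ((b - x) / (b - a))

/-- The point `1/2 + a / log r + i t`. -/
noncomputable def pt (r : ℕ) (a t : ℝ) : ℂ := 1 / 2 + (a : ℂ) / (Real.log r : ℂ) + (t : ℂ) * I

/-- The mollifier (length `r ^ (1/8)`). -/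
noncomputable def MM (r : ℕ) (χ : DirichletCharacter ℂ r) (s : ℂ) : ℂ :=
  ∑ d ∈ Finset.Icc 1 r, (ArithmeticFunction.moebius d : ℂ) *
    (stp (1 / 16) (1 / 8) (Real.log d / Real.log r) : ℂ) * χ d * (d : ℂ) ^ (-s)

/-- The primitive characters modulo `r`. -/
noncomputable def prim (r : ℕ) [NeZero r] : Finset (DirichletCharacter ℂ r) :=
  letI : DecidablePred fun χ : DirichletCharacter ℂ r => χ.IsPrimitive := Classical.decPred _
  Finset.univ.filter fun χ => χ.IsPrimitive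

/-- The normalisation. -/
noncomputable def NN (r : ℕ) [NeZero r] : ℝ := ((prim r).card : ℝ) + (r : ℝ) ^ (9 / 10 : ℝ)

/-- The cut-off of the partial sums of `L`. -/
noncomputable def gc (x : ℝ) : ℝ := stp (5 / 8) (3 / 4) x

/-- Partial sum of `L`. -/
noncomputable def DD (r : ℕ) (χ : DirichletCharacter ℂ r) (s : ℂ) : ℂ :=
  ∑ m ∈ Finset.Icc 1 r, (gc (Real.log m / Real.log r) : ℂ) * χ m * (m : ℂ) ^ (-s)

/-- Laplace transform of `- gc'`. -/
noncomputable def Hf (z : ℂ) : ℂ := ∫ y : ℝ, ((-(deriv gc y) : ℝ) : ℂ) * Complex.exp (-(z * y))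

/-- The coefficient of `n` in a product of two smoothly cut Dirichlet polynomials (see `coef_bound`). -/
noncomputable def aco (P V : ℝ → ℝ) (l a b t t0 : ℝ) (n : ℕ) : ℂ :=
  ∑ d ∈ n.divisors, (ArithmeticFunction.moebius d : ℂ) * (P (Real.log d / l) : ℂ) *
    (V (Real.log (n / d : ℕ) / l) : ℂ) * (d : ℂ) ^ (-((b / l : ℝ) + (t0 : ℂ) * I)) *
      ((n / d : ℕ) : ℂ) ^ (-((a / l : ℝ) + (t : ℂ) * I))

end Pool.Agent.SO
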