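import Mathlib
import Pool.Agent.Lib.MP_9cfc0a_nt.C2Base
import Pool.Agent.Lib.MP_9cfc0a_nt.EMChars
import Pool.Agent.Lib.MP_9cfc0a_nt.SO.Defs

set_option autoImplicit false

/-! Definitions of the second part (local lower bound, separation, assembly). -/

namespace Pool.Agent.SO

open Complex MeasureTheory

/-- The point `1/2 + i t + z / log r`. -/
noncomputable def pz (r : ℕ) (t : ℝ) (z : ℂ) : ℂ := 1 / 2 + (t : ℂ) * I + z / (Real.log r : ℂ)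

/-- The weight `log r / (1 + log r |t' - t|)^m`. -/
noncomputable def kw (r m : ℕ) (t t' : ℝ) : ℝ :=
  Real.log r / (1 + Real.log r * |t' - t|) ^ m

/-- The smooth step in `log n / log r`: `0` for `n ≤ r ^ U`, `1` for `n ≥ r ^ (U + 1)`. -/
noncomputable def th (r : ℕ) (U : ℝ) (n : ℕ) : ℝ :=
  Real.smoothTransition (Real.log n / Real.log r - U)

/-- `P_U(s) = ∑_{n ≤ N} Λ(n) χ(n) (1 - th) n^{-s}` (used with `N ≥ r ^ (U + 1)`). -/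
noncomputable def PP (r : ℕ) (χ : DirichletCharacter ℂ r) (N : ℕ) (U : ℝ) (s : ℂ) : ℂ :=
  ∑ n ∈ Finset.Icc 1 N, ((ArithmeticFunction.vonMangoldt n * (1 - th r U n) : ℝ) : ℂ) * χ n *
    (n : ℂ) ^ (-s)

/-- The window sum `∑ Λ(n) χ(n) (th_U - th_{U+10}) n^{-s}`. -/
noncomputable def AA (r : ℕ) (χ : DirichletCharacter ℂ r) (N : ℕ) (U : ℝ) (s : ℂ) : ℂ :=
  ∑ n ∈ Finset.Icc 1 N, ((ArithmeticFunction.vonMangoldt n * (th r U n - th r (U + 10) n) : ℝ) : ℂ)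
    * χ n * (n : ℂ) ^ (-s)

/-- `G_U = - L' - L P_U`. -/
noncomputable def GG (r : ℕ) [NeZero r] (χ : DirichletCharacter ℂ r) (N : ℕ) (U : ℝ) (s : ℂ) : ℂ :=
  - deriv χ.LFunction s - χ.LFunction s * PP r χ N U s

/-- The coefficients of `G_U`: `∑_{d | k} Λ(d) th_U(d)`. -/
noncomputable def cU (r : ℕ) (U : ℝ) (k : ℕ) : ℝ :=
  ∑ d ∈ k.divisors, ArithmeticFunction.vonMangoldt d * th r U d

/-- The finite approximation of `G_U`, cut at `r ^ (U + 4)`. -/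
noncomputable def Gt (r : ℕ) (χ : DirichletCharacter ℂ r) (N : ℕ) (U : ℝ) (s : ℂ) : ℂ :=
  ∑ k ∈ Finset.Icc 1 N, ((cU r U k * Pool.Agent.MC.C2.vv (k / (r : ℝ) ^ (U + 4)) : ℝ) : ℂ) * χ k *
    (k : ℂ) ^ (-s)

/-- The good pairs `(χ, t)`. -/
def good (r : ℕ) [NeZero r] (b R K : ℝ) (m : ℕ) (χ : DirichletCharacter ℂ r) (t : ℝ) : Prop :=
  Real.circleAverage (fun w => ‖χ.LFunction (pz r t w) * MM r χ (pt r b t)‖ ^ 2) 0 (R + 1)
    ≤ Real.exp (7 * R) ∧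
  ‖χ.LFunction (pt r b t) * MM r χ (pt r b t) - 1‖ ≤ 1 / 2 ∧
  ‖deriv χ.LFunction (pt r b t) * MM r χ (pt r b t)‖ ≤ Real.log r / 16 ∧
  ∫ t' : ℝ, ‖χ.LFunction (pt r 0 t') * MM r χ (pt r b t)‖ ^ 2 * kw r m t t' ≤ K

end Pool.Agent.SO
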