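import Mathlib
import Pool.Agent.Lib.MP_9cfc0a_nt.EMPsi

set_option autoImplicit false

namespace Pool.Agent.SO

open Complex MeasureTheory Pool.Agent.EM

private lemma A1a_card (q : ℕ) (hq : 1 ≤ q) : (q.primeFactors.card : ℝ) ≤ 2 * Real.log q := by
  have h1 : (2 : ℝ) ^ q.primeFactors.card ≤ q := by
    calc (2 : ℝ) ^ q.primeFactors.card = ∏ _p ∈ q.primeFactors, (2 : ℝ) := by
          rw [Finset.prod_const]
      _ ≤ ∏ p ∈ q.primeFactors, (p : ℝ) := by
          refine Finset.prod_le_prod (fun _ _ => by norm_num) fun p hp => ?_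
          exact_mod_cast (Nat.prime_of_mem_primeFactors hp).two_le
      _ ≤ q := by
          rw [← Nat.cast_prod]
          exact Nat.cast_le.mpr (Nat.le_of_dvd hq (Nat.prod_primeFactors_dvd q))
  have h2 := Real.log_le_log (by positivity) h1
  rw [Real.log_pow] at h2
  have h3 := Real.log_two_gt_d9
  have h4 : (0 : ℝ) ≤ q.primeFactors.card := Nat.cast_nonneg _
  nlinarith

private lemma A1a_sum (q : ℕ) (hq : 1 ≤ q) (M : ℕ) (hM : 1 ≤ M) :
    ∑ n ∈ (Finset.Icc 1 M).filter (fun n => ¬ Nat.Coprime n q), ArithmeticFunction.vonMangoldt n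
      ≤ 2 * Real.log q * Real.log M := by
  set N : ℕ := ∏ p ∈ q.primeFactors, p ^ Nat.log p M with hN
  have hN0 : N ≠ 0 := Finset.prod_ne_zero_iff.mpr fun p hp =>
    pow_ne_zero _ (Nat.prime_of_mem_primeFactors hp).ne_zero
  have h1 : ∑ n ∈ (Finset.Icc 1 M).filter (fun n => ¬ Nat.Coprime n q),
      ArithmeticFunction.vonMangoldt n ≤ ∑ n ∈ N.divisors, ArithmeticFunction.vonMangoldt n := by
    rw [← Finset.sum_filter_ne_zero]
    refine Finset.sum_le_sum_of_subset_of_nonneg ?_
      fun n _ _ => ArithmeticFunction.vonMangoldt_nonneg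
    intro n hn
    obtain ⟨hn1, hn2⟩ := Finset.mem_filter.mp hn
    obtain ⟨hn3, hn4⟩ := Finset.mem_filter.mp hn1
    obtain ⟨hn5, hn6⟩ := Finset.mem_Icc.mp hn3
    obtain ⟨p, k, hp, hk, rfl⟩ :=
      (isPrimePow_nat_iff n).mp (ArithmeticFunction.vonMangoldt_ne_zero_iff.mp hn2)
    have hpq : p ∣ q := by
      by_contra h
      exact hn4 (Nat.Coprime.pow_left k ((Nat.Prime.coprime_iff_not_dvd hp).mpr h))
    have hp2 : p ∈ q.primeFactors := Nat.mem_primeFactors.mpr ⟨hp, hpq, by omega⟩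
    refine Nat.mem_divisors.mpr ⟨?_, hN0⟩
    refine dvd_trans (pow_dvd_pow p ?_) (Finset.dvd_prod_of_mem (fun p => p ^ Nat.log p M) hp2)
    exact Nat.le_log_of_pow_le hp.one_lt hn6
  refine h1.trans ?_
  rw [ArithmeticFunction.vonMangoldt_sum, hN, Nat.cast_prod, Real.log_prod]
  · have h2 : ∀ p ∈ q.primeFactors, Real.log ((p ^ Nat.log p M : ℕ) : ℝ) ≤ Real.log M := by
      intro p hp
      have hp' := Nat.prime_of_mem_primeFactors hp
      refine Real.log_le_log ?_ ?_
      · exact_mod_cast pow_pos hp'.pos _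
      · exact_mod_cast Nat.pow_log_le_self p (by omega)
    refine (Finset.sum_le_sum h2).trans ?_
    rw [Finset.sum_const, nsmul_eq_mul]
    exact mul_le_mul_of_nonneg_right (A1a_card q hq) (Real.log_natCast_nonneg M)
  · intro p hp
    have := pow_ne_zero (Nat.log p M) (Nat.prime_of_mem_primeFactors hp).ne_zero
    exact_mod_cast this

/-- A1a. Passing to the primitive character.

PROOF. For `n` coprime to `q` the two characters agree
(`DirichletCharacter.changeLevel` / `χ = changeLevel _ χ.primitiveCharacter`,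
`DirichletCharacter.changeLevel_eq_cast_of_dvd`); for `n` not coprime to `q`, `χ n = 0` and
`‖χ.primitiveCharacter n‖ ≤ 1`. So the difference is at most the sum of `Λ(n)` over `n ≤ x`,
`gcd(n,q) > 1`, i.e. over the prime powers `p^k ≤ x` with `p ∣ q`:
`≤ ∑_{p ∣ q} (log p) ⌊log x / log p⌋ ≤ ω(q) log x`, `ω(q) ≤ log q/log 2 ≤ 2 log q` (`q ≥ 2^{ω(q)}`).
(If `q = 1` both sides are `0`.) -/
theorem primitive_diff (q : ℕ) [NeZero q] (χ : DirichletCharacter ℂ q) (x : ℝ) (hx : 1 ≤ x) :
    ‖psiC χ.primitiveCharacter x - psiC χ x‖ ≤ 2 * Real.log q * Real.log x := by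
  have hq : 1 ≤ q := Nat.pos_of_ne_zero (NeZero.ne q)
  have hM : 1 ≤ ⌊x⌋₊ := Nat.le_floor (by rwa [Nat.cast_one])
  have hlogM : Real.log (⌊x⌋₊ : ℝ) ≤ Real.log x :=
    Real.log_le_log (by exact_mod_cast hM) (Nat.floor_le (by linarith))
  have hlogq : 0 ≤ Real.log (q : ℝ) := Real.log_natCast_nonneg q
  have h1 : ‖psiC χ.primitiveCharacter x - psiC χ x‖ ≤
      ∑ n ∈ (Finset.Icc 1 ⌊x⌋₊).filter (fun n => ¬ Nat.Coprime n q),
        ArithmeticFunction.vonMangoldt n := by
    unfold psiC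
    rw [← Finset.sum_sub_distrib, Finset.sum_filter]
    refine (norm_sum_le _ _).trans (Finset.sum_le_sum fun n _ => ?_)
    have hL : 0 ≤ ArithmeticFunction.vonMangoldt n := ArithmeticFunction.vonMangoldt_nonneg
    rw [← sub_mul, norm_mul, Complex.norm_real, Real.norm_eq_abs, abs_of_nonneg hL]
    by_cases hn : Nat.Coprime n q
    · have h2 : χ.primitiveCharacter (n : ZMod χ.conductor) = χ (n : ZMod q) := by
        have := χ.primitiveCharacter_apply_of_isCoprime (a := (n : ℤ))
          (Nat.isCoprime_iff_coprime.mpr hn)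
        simpa using this
      rw [h2, sub_self, norm_zero, zero_mul, if_neg (by simpa using hn)]
    · have h2 : χ (n : ZMod q) = 0 := by
        apply MulChar.map_nonunit
        rw [ZMod.isUnit_iff_coprime]
        exact hn
      rw [h2, sub_zero, if_pos hn]
      calc ‖χ.primitiveCharacter (n : ZMod χ.conductor)‖ * ArithmeticFunction.vonMangoldt n
          ≤ 1 * ArithmeticFunction.vonMangoldt n :=
            mul_le_mul_of_nonneg_right (χ.primitiveCharacter.norm_le_one _) hL
        _ = _ := one_mul _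
  refine h1.trans ((A1a_sum q hq ⌊x⌋₊ hM).trans ?_)
  exact mul_le_mul_of_nonneg_left hlogM (by positivity)

end Pool.Agent.SO
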