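import Mathlib

set_option autoImplicit false

namespace Pool.Agent.SO

open Complex MeasureTheory

/-- A1b. PROOF. `(log x)^2 ≤ 16 x^(1/2)` for `x ≥ 1` (`Real.log_le_rpow_div` with exponent `1/4`),
`∫_X^∞ x^(1/2-2) dx = 2 X^(-1/2)` (`integral_Ioi_rpow_of_lt`), and restrict to a smaller set. -/
theorem log_sq_tail (X Y : ℝ) (hX : 1 ≤ X) :
    IntegrableOn (fun x : ℝ => (Real.log x) ^ 2 / x ^ 2) (Set.Ioc X Y) ∧
    ∫ x in Set.Ioc X Y, (Real.log x) ^ 2 / x ^ 2 ≤ 32 * X ^ (-(1 / 2) : ℝ) := by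
  have hX0 : 0 < X := by linarith
  have hI : IntegrableOn (fun x : ℝ => (Real.log x) ^ 2 / x ^ 2) (Set.Ioc X Y) := by
    have h1 : ContinuousOn (fun x : ℝ => (Real.log x) ^ 2 / x ^ 2) (Set.Icc X Y) := by
      refine ContinuousOn.div ?_ (by fun_prop) ?_
      · refine ContinuousOn.pow ?_ 2
        refine Real.continuousOn_log.mono ?_
        intro x hx
        have : X ≤ x := hx.1
        exact (by linarith : (0 : ℝ) < x).ne'
      · intro x hx
        have : X ≤ x := hx.1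
        have : (0 : ℝ) < x := by linarith
        positivity
    exact (h1.integrableOn_Icc).mono_set Set.Ioc_subset_Icc_self
  refine ⟨hI, ?_⟩
  have hJ : IntegrableOn (fun x : ℝ => 16 * x ^ (-(3 / 2) : ℝ)) (Set.Ioi X) :=
    (integrableOn_Ioi_rpow_of_lt (by norm_num) hX0).const_mul 16
  have hpt : ∀ x ∈ Set.Ioc X Y, (Real.log x) ^ 2 / x ^ 2 ≤ 16 * x ^ (-(3 / 2) : ℝ) := by
    intro x hx
    have hx1 : 1 ≤ x := by linarith [hx.1]
    have hx0 : 0 < x := by linarith
    have h1 : Real.log x ≤ 4 * x ^ (1 / 4 : ℝ) := by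
      have := Real.log_le_rpow_div hx0.le (by norm_num : (0 : ℝ) < 1 / 4)
      linarith
    have h2 : (Real.log x) ^ 2 ≤ 16 * x ^ (1 / 2 : ℝ) := by
      have h3 := pow_le_pow_left₀ (Real.log_nonneg hx1) h1 2
      refine h3.trans (le_of_eq ?_)
      rw [mul_pow, ← Real.rpow_natCast (x ^ (1 / 4 : ℝ)), ← Real.rpow_mul hx0.le]
      norm_num
    have h4 : x ^ (-(3 / 2) : ℝ) = x ^ (1 / 2 : ℝ) / x ^ 2 := by
      rw [← Real.rpow_natCast x 2, ← Real.rpow_sub hx0]
      norm_num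
    rw [h4, ← mul_div_assoc]
    exact div_le_div_of_nonneg_right h2 (by positivity)
  calc ∫ x in Set.Ioc X Y, (Real.log x) ^ 2 / x ^ 2
      ≤ ∫ x in Set.Ioc X Y, 16 * x ^ (-(3 / 2) : ℝ) :=
        setIntegral_mono_on hI (hJ.mono_set Set.Ioc_subset_Ioi_self) measurableSet_Ioc hpt
    _ ≤ ∫ x in Set.Ioi X, 16 * x ^ (-(3 / 2) : ℝ) := by
        refine setIntegral_mono_set hJ ?_ (Set.Ioc_subset_Ioi_self.eventuallyLE)
        refine (ae_restrict_iff' measurableSet_Ioi).mpr (Filter.Eventually.of_forall fun x hx => ?_)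
        have : X < x := hx
        have : (0 : ℝ) < x := by linarith
        simp only [Pi.zero_apply]
        positivity
    _ = 32 * X ^ (-(1 / 2) : ℝ) := by
        rw [integral_const_mul, integral_Ioi_rpow_of_lt (by norm_num) hX0]
        have e1 : (-(3 / 2) : ℝ) + 1 = -(1 / 2) := by norm_num
        rw [e1]
        ring

end Pool.Agent.SO
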