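import Mathlib
import Pool.Agent.Lib.MP_9cfc0a_nt.Mg.G002
import Pool.Agent.Lib.MP_9cfc0a_nt.Mg.G006

set_option autoImplicit false

/-! The three mean square bounds. -/

namespace Pool.Agent.SO

open Finset Complex MeasureTheory

/-- moment_a.
PROOF. `L m = DD m + (L - DD) m`, `|x+y|² ≤ 2|x|²+2|y|²`, `DD_moment`, `rem_moment`; `WW l A t0 t` is the product of the two
powers; raise the exponents to the maximum of the two `A`'s (all bases are `≥ 1`). -/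
lemma moment_a : ∃ (A : ℕ) (C : ℝ) (r₀ : ℕ), 1 ≤ C ∧ ∀ (r : ℕ) [NeZero r], r₀ ≤ r → ∀ (a b t t0 : ℝ), 0 ≤ a → 0 ≤ b →
    ∑ χ ∈ prim r, ‖χ.LFunction (pt r a t) * MM r χ (pt r b t0)‖ ^ 2
      ≤ C * Real.exp ((a + b) / 4) * (1 + |t|) ^ A * (1 + Real.log r * |t - t0|) ^ A * NN r := by
  obtain ⟨B, C₁, hC₁, h₁⟩ := DD_moment
  obtain ⟨A, C₂, r₀, hA, hC₂, hr₀, h₂⟩ := rem_moment
  refine ⟨max A B, 2 * C₁ + 2 * C₂, r₀, by linarith, ?_⟩
  intro r _ hr a b t t0 ha hb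
  have hr8 : 8 ≤ r := hr₀.trans hr
  have hlog : 0 ≤ Real.log r := Real.log_natCast_nonneg r
  have hX : (1 : ℝ) ≤ 1 + |t| := by linarith [abs_nonneg t]
  have hY : (1 : ℝ) ≤ 1 + Real.log r * |t - t0| := by
    have := mul_nonneg hlog (abs_nonneg (t - t0)); linarith
  have hN : 0 ≤ NN r := by
    unfold NN; positivity
  have e1 : ∑ χ ∈ prim r, ‖DD r χ (pt r a t) * MM r χ (pt r b t0)‖ ^ 2
      ≤ C₁ * Real.exp ((a + b) / 4) * ((1 + |t|) ^ (max A B) * (1 + Real.log r * |t - t0|) ^ (max A B)) * NN r := by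
    refine (h₁ r hr8 a b t t0 ha hb).trans ?_
    gcongr
    calc (1 + Real.log r * |t - t0|) ^ B = 1 * (1 + Real.log r * |t - t0|) ^ B := (one_mul _).symm
      _ ≤ (1 + |t|) ^ (max A B) * (1 + Real.log r * |t - t0|) ^ (max A B) := by
        refine mul_le_mul (one_le_pow₀ hX) (pow_le_pow_right₀ hY (le_max_right _ _)) (by positivity) (by positivity)
  have e2 : ∑ χ ∈ prim r, ‖(χ.LFunction (pt r a t) - DD r χ (pt r a t)) * MM r χ (pt r b t0)‖ ^ 2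
      ≤ C₂ * Real.exp ((a + b) / 4) * ((1 + |t|) ^ (max A B) * (1 + Real.log r * |t - t0|) ^ (max A B)) * NN r := by
    refine (h₂ r hr a b t t0 ha hb).trans ?_
    unfold WW
    have g1 : (1 + |t|) ^ A ≤ (1 + |t|) ^ (max A B) := pow_le_pow_right₀ hX (le_max_left _ _)
    have g2 : (1 + Real.log r * |t - t0|) ^ A ≤ (1 + Real.log r * |t - t0|) ^ (max A B) :=
      pow_le_pow_right₀ hY (le_max_left _ _)
    have g3 : Real.exp (-(5 / 4 * a) + b / 4) ≤ Real.exp ((a + b) / 4) := Real.exp_le_exp.mpr (by linarith)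
    gcongr
  have e3 : ∀ χ ∈ prim r, ‖χ.LFunction (pt r a t) * MM r χ (pt r b t0)‖ ^ 2
      ≤ 2 * ‖DD r χ (pt r a t) * MM r χ (pt r b t0)‖ ^ 2
        + 2 * ‖(χ.LFunction (pt r a t) - DD r χ (pt r a t)) * MM r χ (pt r b t0)‖ ^ 2 := by
    intro χ _
    have hx : χ.LFunction (pt r a t) * MM r χ (pt r b t0) = DD r χ (pt r a t) * MM r χ (pt r b t0)
        + (χ.LFunction (pt r a t) - DD r χ (pt r a t)) * MM r χ (pt r b t0) := by ring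
    rw [hx]
    have := norm_add_le (DD r χ (pt r a t) * MM r χ (pt r b t0))
      ((χ.LFunction (pt r a t) - DD r χ (pt r a t)) * MM r χ (pt r b t0))
    have h0 := norm_nonneg (DD r χ (pt r a t) * MM r χ (pt r b t0)
        + (χ.LFunction (pt r a t) - DD r χ (pt r a t)) * MM r χ (pt r b t0))
    nlinarith [sq_nonneg (‖DD r χ (pt r a t) * MM r χ (pt r b t0)‖
      - ‖(χ.LFunction (pt r a t) - DD r χ (pt r a t)) * MM r χ (pt r b t0)‖)]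
  calc ∑ χ ∈ prim r, ‖χ.LFunction (pt r a t) * MM r χ (pt r b t0)‖ ^ 2
      ≤ ∑ χ ∈ prim r, (2 * ‖DD r χ (pt r a t) * MM r χ (pt r b t0)‖ ^ 2
        + 2 * ‖(χ.LFunction (pt r a t) - DD r χ (pt r a t)) * MM r χ (pt r b t0)‖ ^ 2) := Finset.sum_le_sum e3
    _ = 2 * ∑ χ ∈ prim r, ‖DD r χ (pt r a t) * MM r χ (pt r b t0)‖ ^ 2
        + 2 * ∑ χ ∈ prim r, ‖(χ.LFunction (pt r a t) - DD r χ (pt r a t)) * MM r χ (pt r b t0)‖ ^ 2 := by
        rw [Finset.sum_add_distrib, Finset.mul_sum, Finset.mul_sum]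
    _ ≤ _ := by nlinarith [e1, e2]

/-- moment_b.
PROOF. `L m - 1 = (DD m - 1) + (L - DD) m`; `DDMM_sub_one`; `rem_moment` with `a = b`, `t0 = t`:
`e^{-5b/4+b/4} = e^{-b} ≤ e^{-b/8}`, `WW l A t t = (1+|t|)^A`. -/
lemma moment_b : ∃ (A : ℕ) (C : ℝ) (r₀ : ℕ), 1 ≤ C ∧ ∀ (r : ℕ) [NeZero r], r₀ ≤ r → ∀ (b t : ℝ), 0 ≤ b →
    ∑ χ ∈ prim r, ‖χ.LFunction (pt r b t) * MM r χ (pt r b t) - 1‖ ^ 2
      ≤ C * Real.exp (-(b / 8)) * (1 + |t|) ^ A * NN r := by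
  obtain ⟨C₁, hC₁, h₁⟩ := DDMM_sub_one
  obtain ⟨A, C₂, r₀, hA, hC₂, hr₀, h₂⟩ := rem_moment
  refine ⟨A, 2 * C₁ + 2 * C₂, r₀, by linarith, ?_⟩
  intro r _ hr b t hb
  have hr8 : 8 ≤ r := hr₀.trans hr
  have hX : (1 : ℝ) ≤ 1 + |t| := by linarith [abs_nonneg t]
  have hN : 0 ≤ NN r := by
    unfold NN; positivity
  have e1 : ∑ χ ∈ prim r, ‖DD r χ (pt r b t) * MM r χ (pt r b t) - 1‖ ^ 2
      ≤ C₁ * Real.exp (-(b / 8)) * (1 + |t|) ^ A * NN r := by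
    refine (h₁ r hr8 b t hb).trans ?_
    have : C₁ * Real.exp (-(b / 8)) ≤ C₁ * Real.exp (-(b / 8)) * (1 + |t|) ^ A :=
      le_mul_of_one_le_right (by positivity) (one_le_pow₀ hX)
    gcongr
  have e2 : ∑ χ ∈ prim r, ‖(χ.LFunction (pt r b t) - DD r χ (pt r b t)) * MM r χ (pt r b t)‖ ^ 2
      ≤ C₂ * Real.exp (-(b / 8)) * (1 + |t|) ^ A * NN r := by
    refine (h₂ r hr b b t t hb hb).trans ?_
    have hW : WW (Real.log r) A t t = (1 + |t|) ^ A := by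
      unfold WW; simp
    rw [hW]
    gcongr
    linarith
  have e3 : ∀ χ ∈ prim r, ‖χ.LFunction (pt r b t) * MM r χ (pt r b t) - 1‖ ^ 2
      ≤ 2 * ‖DD r χ (pt r b t) * MM r χ (pt r b t) - 1‖ ^ 2
        + 2 * ‖(χ.LFunction (pt r b t) - DD r χ (pt r b t)) * MM r χ (pt r b t)‖ ^ 2 := by
    intro χ _
    have hx : χ.LFunction (pt r b t) * MM r χ (pt r b t) - 1 = (DD r χ (pt r b t) * MM r χ (pt r b t) - 1)
        + (χ.LFunction (pt r b t) - DD r χ (pt r b t)) * MM r χ (pt r b t) := by ring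
    rw [hx]
    have := norm_add_le (DD r χ (pt r b t) * MM r χ (pt r b t) - 1)
      ((χ.LFunction (pt r b t) - DD r χ (pt r b t)) * MM r χ (pt r b t))
    have h0 := norm_nonneg ((DD r χ (pt r b t) * MM r χ (pt r b t) - 1)
        + (χ.LFunction (pt r b t) - DD r χ (pt r b t)) * MM r χ (pt r b t))
    nlinarith [sq_nonneg (‖DD r χ (pt r b t) * MM r χ (pt r b t) - 1‖
      - ‖(χ.LFunction (pt r b t) - DD r χ (pt r b t)) * MM r χ (pt r b t)‖)]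
  calc ∑ χ ∈ prim r, ‖χ.LFunction (pt r b t) * MM r χ (pt r b t) - 1‖ ^ 2
      ≤ ∑ χ ∈ prim r, (2 * ‖DD r χ (pt r b t) * MM r χ (pt r b t) - 1‖ ^ 2
        + 2 * ‖(χ.LFunction (pt r b t) - DD r χ (pt r b t)) * MM r χ (pt r b t)‖ ^ 2) := Finset.sum_le_sum e3
    _ = 2 * ∑ χ ∈ prim r, ‖DD r χ (pt r b t) * MM r χ (pt r b t) - 1‖ ^ 2
        + 2 * ∑ χ ∈ prim r, ‖(χ.LFunction (pt r b t) - DD r χ (pt r b t)) * MM r χ (pt r b t)‖ ^ 2 := by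
        rw [Finset.sum_add_distrib, Finset.mul_sum, Finset.mul_sum]
    _ ≤ _ := by nlinarith [e1, e2]

/-- moment_c.
PROOF. `L' m = DD' m + (L' - DD') m`; `dDDMM`, `rem_deriv`; `e^{-b} ≤ e^{-b/8} ≤ 128/b²` (`x²/2 ≤ e^x` at `x = b/8`). -/
lemma moment_c : ∃ (A : ℕ) (C : ℝ) (r₀ : ℕ), 1 ≤ C ∧ ∀ (r : ℕ) [NeZero r], r₀ ≤ r → ∀ (b t : ℝ), 1 ≤ b →
    b ≤ Real.log r / 4 →
    ∑ χ ∈ prim r, ‖deriv χ.LFunction (pt r b t) * MM r χ (pt r b t)‖ ^ 2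
      ≤ C * Real.log r ^ 2 / b ^ 2 * (1 + |t|) ^ A * NN r := by
  obtain ⟨C₁, hC₁, h₁⟩ := dDDMM
  obtain ⟨A, C₂, r₀, hC₂, hr₀, h₂⟩ := rem_deriv
  refine ⟨A, 258 * C₁ + 256 * C₂, r₀, by linarith, ?_⟩
  intro r _ hr b t hb hb2
  have hr8 : 8 ≤ r := hr₀.trans hr
  have hX : (1 : ℝ) ≤ 1 + |t| := by linarith [abs_nonneg t]
  have hXA : (1 : ℝ) ≤ (1 + |t|) ^ A := one_le_pow₀ hX
  have hN : 0 ≤ NN r := by
    unfold NN; positivity
  have hexp : Real.exp (-(b / 8)) ≤ 128 / b ^ 2 := by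
    have h1 := Real.quadratic_le_exp_of_nonneg (x := b / 8) (by linarith)
    have h2 : b ^ 2 / 128 ≤ Real.exp (b / 8) := by nlinarith
    rw [Real.exp_neg, inv_eq_one_div, div_le_div_iff₀ (Real.exp_pos _) (by positivity)]
    linarith
  have hexp2 : Real.exp (-b) ≤ 128 / b ^ 2 := by
    refine le_trans (Real.exp_le_exp.mpr (by linarith)) hexp
  have hb2p : 0 < b ^ 2 := by positivity
  have e1 : ∑ χ ∈ prim r, ‖deriv (DD r χ) (pt r b t) * MM r χ (pt r b t)‖ ^ 2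
      ≤ C₁ * (129 / b ^ 2) * (Real.log r ^ 2 * (1 + |t|) ^ A * NN r) := by
    refine (h₁ r hr8 b t hb hb2).trans ?_
    have h3 : 1 / b ^ 2 + Real.exp (-(b / 8)) ≤ 129 / b ^ 2 := by
      calc 1 / b ^ 2 + Real.exp (-(b / 8)) ≤ 1 / b ^ 2 + 128 / b ^ 2 := by linarith
        _ = 129 / b ^ 2 := by ring
    calc C₁ * Real.log r ^ 2 * (1 / b ^ 2 + Real.exp (-(b / 8))) * NN r
        ≤ C₁ * Real.log r ^ 2 * (129 / b ^ 2) * NN r := by gcongr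
      _ = C₁ * (129 / b ^ 2) * (Real.log r ^ 2 * 1 * NN r) := by ring
      _ ≤ C₁ * (129 / b ^ 2) * (Real.log r ^ 2 * (1 + |t|) ^ A * NN r) := by gcongr
  have e2 : ∑ χ ∈ prim r, ‖(deriv χ.LFunction (pt r b t) - deriv (DD r χ) (pt r b t)) * MM r χ (pt r b t)‖ ^ 2
      ≤ C₂ * (128 / b ^ 2) * (Real.log r ^ 2 * (1 + |t|) ^ A * NN r) := by
    refine (h₂ r hr b t hb).trans ?_
    calc C₂ * Real.log r ^ 2 * Real.exp (-b) * (1 + |t|) ^ A * NN r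
        ≤ C₂ * Real.log r ^ 2 * (128 / b ^ 2) * (1 + |t|) ^ A * NN r := by gcongr
      _ = _ := by ring
  have e3 : ∀ χ ∈ prim r, ‖deriv χ.LFunction (pt r b t) * MM r χ (pt r b t)‖ ^ 2
      ≤ 2 * ‖deriv (DD r χ) (pt r b t) * MM r χ (pt r b t)‖ ^ 2
        + 2 * ‖(deriv χ.LFunction (pt r b t) - deriv (DD r χ) (pt r b t)) * MM r χ (pt r b t)‖ ^ 2 := by
    intro χ _
    have hx : deriv χ.LFunction (pt r b t) * MM r χ (pt r b t) = deriv (DD r χ) (pt r b t) * MM r χ (pt r b t)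
        + (deriv χ.LFunction (pt r b t) - deriv (DD r χ) (pt r b t)) * MM r χ (pt r b t) := by ring
    rw [hx]
    have := norm_add_le (deriv (DD r χ) (pt r b t) * MM r χ (pt r b t))
      ((deriv χ.LFunction (pt r b t) - deriv (DD r χ) (pt r b t)) * MM r χ (pt r b t))
    have h0 := norm_nonneg (deriv (DD r χ) (pt r b t) * MM r χ (pt r b t)
        + (deriv χ.LFunction (pt r b t) - deriv (DD r χ) (pt r b t)) * MM r χ (pt r b t))
    nlinarith [sq_nonneg (‖deriv (DD r χ) (pt r b t) * MM r χ (pt r b t)‖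
      - ‖(deriv χ.LFunction (pt r b t) - deriv (DD r χ) (pt r b t)) * MM r χ (pt r b t)‖)]
  calc ∑ χ ∈ prim r, ‖deriv χ.LFunction (pt r b t) * MM r χ (pt r b t)‖ ^ 2
      ≤ ∑ χ ∈ prim r, (2 * ‖deriv (DD r χ) (pt r b t) * MM r χ (pt r b t)‖ ^ 2
        + 2 * ‖(deriv χ.LFunction (pt r b t) - deriv (DD r χ) (pt r b t)) * MM r χ (pt r b t)‖ ^ 2) :=
        Finset.sum_le_sum e3
    _ = 2 * ∑ χ ∈ prim r, ‖deriv (DD r χ) (pt r b t) * MM r χ (pt r b t)‖ ^ 2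
        + 2 * ∑ χ ∈ prim r, ‖(deriv χ.LFunction (pt r b t) - deriv (DD r χ) (pt r b t))
            * MM r χ (pt r b t)‖ ^ 2 := by
        rw [Finset.sum_add_distrib, Finset.mul_sum, Finset.mul_sum]
    _ ≤ 2 * (C₁ * (129 / b ^ 2) * (Real.log r ^ 2 * (1 + |t|) ^ A * NN r))
        + 2 * (C₂ * (128 / b ^ 2) * (Real.log r ^ 2 * (1 + |t|) ^ A * NN r)) := by linarith
    _ = (258 * C₁ + 256 * C₂) * Real.log r ^ 2 / b ^ 2 * (1 + |t|) ^ A * NN r := by ring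

end Pool.Agent.SO
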